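import Pool.Agent.N843.CK.Stm
import Pool.Agent.R426.QK.Asy

/-!
# Project CK (helper843): CK-ASY, the final asymptotics (port of `Pool/Agent/R426/QK/Asy.lean`)
-/

set_option autoImplicit false

open scoped Classical
open Finset Filter

namespace Pool.Agent.N966.CK

open Pool.Agent.R426.QK.Asy
open Pool.Agent.R426.QK (SS Rg sm la lt3 bl Nd nrm c2 CntP LAE)
open Pool.Agent.Y698 (RR)
open Pool.Agent.N843.CK
open Pool.Agent.N848.AW (gg hh r8)
open Pool.Agent.Y703.CX (jj XX eL zz kk eL_tendsto logX_eq rpow_eL HH NN ev_eL one_le_exp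
  HH_ge HH_le HH_pos kk_ge kk_le X_pos one_add_log lin_le zz_ge zz_pos)

/-- the class in terms of the small and the large primes -/
theorem c1_iff (z : ℕ) (S : Finset RR) : C1 S ↔
    (∑ u ∈ sm z S, gg u + ∑ π ∈ la z S, gg π = 0) ∧
      (∑ u ∈ sm z S, hh u + ∑ π ∈ la z S, hh π = 0) := by
  unfold C1 Pool.Agent.R426.QK.sm Pool.Agent.R426.QK.la
  rw [sum_filter_add_sum_filter_not, sum_filter_add_sum_filter_not]

/-- the sets outside the regular part -/
theorem out_sub1 (X z H k V : ℕ) :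
    S1 X \ ((Rg X z H k V).filter fun S => Nd1 (sm z S) (la z S)) ⊆
      (((((SS X).filter fun S => k < S.card) ∪
      ((SS X).filter fun S => S.card ≤ k ∧
        X < (∏ π ∈ sm z S, nrm π) * ∏ π ∈ la z S, XX H (bl H π))) ∪
      ((SS X).filter fun S => ¬ Set.InjOn (bl H) (la z S : Set RR))) ∪
      ((SS X).filter fun S => S.card ≤ k ∧ (lt3 z S).card < 4 * (sm z S).card + V)) ∪
      ((SS X).filter fun S => S.card ≤ k ∧ ¬ Nd (sm z S) (la z S)) := by
  intro S hS
  rw [Finset.mem_sdiff, Finset.mem_filter] at hS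
  obtain ⟨h0, h2⟩ := hS
  unfold S1 at h0
  obtain ⟨h1, hC⟩ := mem_filter.1 h0
  simp only [mem_union, mem_filter]
  by_contra hc
  push Not at hc
  obtain ⟨⟨⟨⟨c1, c2⟩, c3⟩, c4⟩, c5⟩ := hc
  have d1 : S.card ≤ k := c1 h1
  have d2 := c2 h1 d1
  have d3 := c3 h1
  have d4 := c4 h1 d1
  have d5 := c5 h1 d1
  apply h2
  refine ⟨?_, ((c1_iff z S).1 hC).1, ((c1_iff z S).1 hC).2, d5⟩
  unfold Pool.Agent.R426.QK.Rg
  rw [mem_filter]
  exact ⟨h1, d3, d1, d2, d4⟩

theorem t_ASY1 : Pool.Agent.N843.CK.S_ASY1 := by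
  intro hR h1 h3 h4 h5 hK hC hB hF hLo hc2
  obtain ⟨C, hC1, hkey⟩ := hK hR h1 h3 h5
  obtain ⟨D, hD⟩ := hC
  obtain ⟨c, X₀, hc, hlow⟩ := hLo
  have hD0 : 0 < D := by linarith [hD.one]
  unfold S_DQ1
  rw [Metric.tendsto_nhds]
  intro ε hε
  have hε6 : (0 : ℝ) < ε * c / (6 * D) := by positivity
  obtain ⟨V, hV⟩ := h4 (ε * c / (6 * D)) hε6
  have s1 := sml_many hD
  have s2 := sml_cut hD
  have s3 := sml_coll hD
  have s4 := sml_eps (hF V)
  have s5 := sml_eps hB
  have s6 := sml_main hC1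
  have s := sml_add (sml_add (sml_add (sml_add (sml_add s1 s2) s3) s4) s5) s6
  have hδ : (0 : ℝ) < c * ε / 4 := by positivity
  filter_upwards [s (c * ε / 4) hδ, ev_eL 1, eventually_ge_atTop X₀] with X hX hl hX0
  rw [neg_zero, zero_mul, Real.exp_zero, mul_one] at hX
  have hl0 : 0 < eL X := by linarith
  have hlo := hlow X hX0
  have hXp := X_pos hl0
  have hXp' : (0 : ℝ) < X := by exact_mod_cast hXp
  have hall := hD.all X hXp
  have hSpos : (0 : ℝ) < ((S1 X).card : ℝ) := by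
    refine lt_of_lt_of_le ?_ hlo
    positivity
  have hN : (HH X : ℝ) * Real.log X < NN X := by
    unfold Pool.Agent.Y703.CX.NN
    push_cast
    exact Nat.lt_floor_add_one _
  have hmain := hkey (ε * c / (6 * D)) V hε6 hV X (zz X) (HH X) (kk X) (NN X) (kap C X) hXp
    (HH_pos hl0) (zz_pos hl) (kap_nonneg hC1 X) (kap_pow hC1 hl) hN
  set T := (Rg X (zz X) (HH X) (kk X) V).filter fun S => Nd1 (sm (zz X) S) (la (zz X) S) with hT
  have hTG : (Rg X (zz X) (HH X) (kk X) V).filter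
      (fun S => Nd1 (sm (zz X) S) (la (zz X) S) ∧ Pool.Agent.R426.QK.Gd S) =
        T.filter Pool.Agent.R426.QK.Gd := by
    rw [hT, filter_filter]
  rw [hTG] at hmain
  have hTS : T ⊆ S1 X := by
    intro S hS
    rw [hT, mem_filter] at hS
    obtain ⟨g1, g2⟩ := hS
    unfold S1
    rw [mem_filter]
    refine ⟨filter_subset _ _ g1, (c1_iff (zz X) S).2 ⟨g2.1, g2.2.1⟩⟩
  have hRS : ((Rg X (zz X) (HH X) (kk X) V).card : ℝ) ≤ ((SS X).card : ℝ) := by
    exact_mod_cast card_le_card (filter_subset _ _)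
  have hcmp := cmp Pool.Agent.R426.QK.Gd T (S1 X) hTS c2 hc2.2.1.le hc2.2.2.1.le
  have hout : ((S1 X \ T).card : ℝ) ≤
      ((((SS X).filter fun S => kk X < S.card).card : ℝ) +
      (((SS X).filter fun S => S.card ≤ kk X ∧
        X < (∏ π ∈ sm (zz X) S, nrm π) * ∏ π ∈ la (zz X) S, XX (HH X) (bl (HH X) π)).card : ℝ) +
      (((SS X).filter fun S => ¬ Set.InjOn (bl (HH X)) (la (zz X) S : Set RR)).card : ℝ) +
      (((SS X).filter fun S => S.card ≤ kk X ∧
        (lt3 (zz X) S).card < 4 * (sm (zz X) S).card + V).card : ℝ)) +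
      (((SS X).filter fun S => S.card ≤ kk X ∧ ¬ Nd (sm (zz X) S) (la (zz X) S)).card : ℝ) := by
    have g := card_le_card (out_sub1 X (zz X) (HH X) (kk X) V)
    rw [← hT] at g
    have g2 := (g.trans (card_union_le _ _)).trans (Nat.add_le_add_right ((card_union_le _ _).trans
      (Nat.add_le_add_right ((card_union_le _ _).trans
      (Nat.add_le_add_right (card_union_le _ _) _)) _)) _)
    exact_mod_cast g2
  have htot : |(((S1 X).filter Pool.Agent.R426.QK.Gd).card : ℝ) - c2 * ((S1 X).card : ℝ)| ≤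
      ε * c / 6 * X + c * ε / 4 * X := by
    have g1 : ε * c / (6 * D) * ((Rg X (zz X) (HH X) (kk X) V).card : ℝ) ≤
        ε * c / 6 * X := by
      calc ε * c / (6 * D) * ((Rg X (zz X) (HH X) (kk X) V).card : ℝ) ≤
          ε * c / (6 * D) * (D * X) := mul_le_mul_of_nonneg_left (hRS.trans hall) hε6.le
        _ = ε * c / 6 * X := by
          field_simp
    linarith
  rw [Real.dist_eq]
  have e3 : (((S1 X).filter Pool.Agent.R426.QK.Gd).card : ℝ) / ((S1 X).card : ℝ) - c2 =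
      ((((S1 X).filter Pool.Agent.R426.QK.Gd).card : ℝ) - c2 * ((S1 X).card : ℝ)) /
        ((S1 X).card : ℝ) := by
    field_simp
  rw [e3, abs_div, abs_of_pos hSpos, div_lt_iff₀ hSpos]
  refine lt_of_le_of_lt htot ?_
  have g2 : c * ε / 4 * X ≤ ε / 4 * ((S1 X).card : ℝ) := by
    calc c * ε / 4 * X = ε / 4 * (c * X) := by ring
      _ ≤ _ := mul_le_mul_of_nonneg_left hlo (by linarith)
  have g3 : ε * c / 6 * X ≤ ε / 6 * ((S1 X).card : ℝ) := by
    calc ε * c / 6 * X = ε / 6 * (c * X) := by ring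
      _ ≤ _ := mul_le_mul_of_nonneg_left hlo (by linarith)
  have g4 : 0 < ε * ((S1 X).card : ℝ) := by positivity
  linarith

end Pool.Agent.N966.CK

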